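import Pool.Agent.Y783.OM.Quot
import Pool.Agent.Results.MP_b00c97_gt.Square

/-!
# Reduction of the open-finite game to separable metrizable groups
-/

set_option autoImplicit false

namespace Pool.Agent.Y783.OM

open Set Topology Pointwise Filter
open Pool.Agent.Results.MP_b00c97_gt.Square (W mv W_nhds W_sub mem_mv OBounded PlayerIWins)

universe u

/-- terms for the closure of a sequence of neighbourhoods under countably many operations -/
inductive Tm : Type
  | base (n : ℕ) : Tm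
  | inter (a b : Tm) : Tm
  | half (a : Tm) : Tm
  | inv (a : Tm) : Tm
  | conj (k : ℕ) (a : Tm) : Tm
  deriving Countable

/-- value of a term -/
def ev {G : Type u} [Group G] (w : ℕ → Set G) (h : Set G → Set G) (cj : Set G → ℕ → Set G) :
    Tm → Set G
  | .base n => w n
  | .inter a b => ev w h cj a ∩ ev w h cj b
  | .half a => h (ev w h cj a)
  | .inv a => (ev w h cj a)⁻¹
  | .conj k a => cj (ev w h cj a) k

theorem exists_basis {G : Type u} [Group G] [TopologicalSpace G] [IsTopologicalGroup G]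
    (hnar : ∀ V ∈ 𝓝 (1 : G), ∃ c : ℕ → G, ∀ x, ∃ k, (c k)⁻¹ * x ∈ V)
    (w : ℕ → Set G) (hw : ∀ n, w n ∈ 𝓝 (1 : G)) :
    ∃ B : GroupFilterBasis G, {V | V ∈ B}.Countable ∧ (∀ n, w n ∈ B) ∧
      ∀ V ∈ B, V ∈ 𝓝 (1 : G) := by
  have hh : ∀ U : Set G, ∃ V : Set G, U ∈ 𝓝 (1 : G) → V ∈ 𝓝 (1 : G) ∧ V * V ⊆ U := by
    intro U
    by_cases hU : U ∈ 𝓝 (1 : G)
    · obtain ⟨V, hV, h1, h2⟩ := exists_open_nhds_one_mul_subset hU
      exact ⟨V, fun _ => ⟨hV.mem_nhds h1, h2⟩⟩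
    · exact ⟨∅, fun h => absurd h hU⟩
  choose h hh using hh
  have hcj : ∀ U : Set G, ∃ Wk : ℕ → Set G, U ∈ 𝓝 (1 : G) → (∀ k, Wk k ∈ 𝓝 (1 : G)) ∧
      ∀ x, ∃ k, ∀ y ∈ Wk k, x * y * x⁻¹ ∈ U := by
    intro U
    by_cases hU : U ∈ 𝓝 (1 : G)
    · have h1 : ContinuousAt (fun p : G × G => p.1 * p.2 * p.1⁻¹) ((1 : G), (1 : G)) := by
        fun_prop
      have h2 : (fun p : G × G => p.1 * p.2 * p.1⁻¹) ⁻¹' U ∈ 𝓝 ((1 : G), (1 : G)) :=
        h1.preimage_mem_nhds (by simpa using hU)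
      obtain ⟨A, hA, A', hA', hAA⟩ := mem_nhds_prod_iff.1 h2
      obtain ⟨c, hc⟩ := hnar A⁻¹ (inv_mem_nhds_one G hA)
      refine ⟨fun k => {y | (c k)⁻¹ * y * c k ∈ A'}, fun _ => ⟨fun k => ?_, fun x => ?_⟩⟩
      · have h3 : ContinuousAt (fun y : G => (c k)⁻¹ * y * c k) 1 := by fun_prop
        exact h3.preimage_mem_nhds (by simpa using hA')
      · obtain ⟨k, hk⟩ := hc x⁻¹
        refine ⟨k, fun y hy => ?_⟩
        have h4 : x * c k ∈ A := by
          have : ((c k)⁻¹ * x⁻¹)⁻¹ ∈ A := hk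
          simpa using this
        have h5 : (x * c k, (c k)⁻¹ * y * c k) ∈ A ×ˢ A' := ⟨h4, hy⟩
        have h6 : x * c k * ((c k)⁻¹ * y * c k) * (x * c k)⁻¹ ∈ U := hAA h5
        have h7 : x * c k * ((c k)⁻¹ * y * c k) * (x * c k)⁻¹ = x * y * x⁻¹ := by group
        rwa [h7] at h6
    · exact ⟨fun _ => ∅, fun h => absurd h hU⟩
  choose cj hcj using hcj
  have hev : ∀ t, ev w h cj t ∈ 𝓝 (1 : G) := by
    intro t
    induction t with
    | base n => exact hw n
    | inter a b ha hb => exact inter_mem ha hb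
    | half a ha => exact (hh _ ha).1
    | inv a ha => exact inv_mem_nhds_one G ha
    | conj k a ha => exact (hcj _ ha).1 k
  let B : GroupFilterBasis G :=
    { sets := range (ev w h cj)
      nonempty := ⟨_, Tm.base 0, rfl⟩
      inter_sets := by
        rintro _ _ ⟨a, rfl⟩ ⟨b, rfl⟩
        exact ⟨_, ⟨Tm.inter a b, rfl⟩, subset_rfl⟩
      one' := by
        rintro _ ⟨a, rfl⟩
        exact mem_of_mem_nhds (hev a)
      mul' := by
        rintro _ ⟨a, rfl⟩
        exact ⟨_, ⟨Tm.half a, rfl⟩, (hh _ (hev a)).2⟩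
      inv' := by
        rintro _ ⟨a, rfl⟩
        exact ⟨_, ⟨Tm.inv a, rfl⟩, fun x hx => hx⟩
      conj' := by
        rintro x _ ⟨a, rfl⟩
        obtain ⟨k, hk⟩ := (hcj _ (hev a)).2 x
        exact ⟨_, ⟨Tm.conj k a, rfl⟩, fun y hy => hk y hy⟩ }
  refine ⟨B, countable_range (ev w h cj), fun n => ⟨Tm.base n, rfl⟩, ?_⟩
  rintro _ ⟨t, rfl⟩
  exact hev t

/-- number associated with a list of codes -/
def NN (l : List ℕ) : ℕ := l.length + l.sum + 1

theorem lt_NN {l : List ℕ} {a : ℕ} (h : a ∈ l) : a < NN l := by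
  have : a ≤ l.sum := by
    induction l with
    | nil => simp at h
    | cons b l ih =>
      rw [List.sum_cons]
      rcases List.mem_cons.1 h with rfl | h
      · omega
      · have := ih h
        omega
  unfold NN
  omega

theorem exists_metrizable (G : Type u) [Group G] [TopologicalSpace G] [IsTopologicalGroup G]
    (hnar : ∀ V ∈ 𝓝 (1 : G), ∃ c : ℕ → G, ∀ x, ∃ k, (c k)⁻¹ * x ∈ V)
    (A : Set G) (hwin : PlayerIWins A) :
    ∃ (Q : Type u) (_ : Group Q) (_ : TopologicalSpace Q) (f : G →* Q),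
      IsTopologicalGroup Q ∧ TopologicalSpace.MetrizableSpace Q ∧
      TopologicalSpace.SeparableSpace Q ∧ Continuous f ∧ Function.Surjective f ∧
      PlayerIWins (f '' A) := by
  classical
  obtain ⟨σ, hσ, hw⟩ := hwin
  have hσ3 : ∀ L, ∃ V : Set G, V ∈ 𝓝 (1 : G) ∧ ∀ a ∈ V, ∀ b ∈ V, ∀ d ∈ V, a * b * d ∈ σ L := by
    intro L
    obtain ⟨V, hV, hs⟩ := exists_nhds_one_split4 (hσ L)
    refine ⟨V, hV, fun a ha b hb d hd => ?_⟩
    have := hs ha hb hd (mem_of_mem_nhds hV)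
    rwa [mul_one] at this
  choose σ' hσ' hσ3 using hσ3
  have hex : ∀ V : Set G, ∃ c : ℕ → G, V ∈ 𝓝 (1 : G) → ∀ x, ∃ k, (c k)⁻¹ * x ∈ V := by
    intro V
    by_cases hV : V ∈ 𝓝 (1 : G)
    · obtain ⟨c, hc⟩ := hnar V hV
      exact ⟨c, fun _ => hc⟩
    · exact ⟨fun _ => 1, fun h => absurd h hV⟩
  choose c hc using hex
  have hw1 : ∀ n, W σ' c n ∈ 𝓝 (1 : G) := W_nhds hσ' c
  obtain ⟨B, hB1, hB2, hB3⟩ := exists_basis hnar (W σ' c) hw1
  obtain ⟨Q, iG, iT, f, h1, h2, h3, h4, h5, h6, h7⟩ :=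
    exists_quotient G B hB1 (fun V hV => hnar V (hB3 V hV))
  have hcont : Continuous f := by
    refine continuous_of_continuousAt_one f ?_
    intro O hO
    rw [map_one] at hO
    obtain ⟨V, hV, hVO⟩ := h6 O hO
    exact mem_map.2 (mem_of_superset (hB3 V hV) (image_subset_iff.1 hVO))
  refine ⟨Q, iG, iT, f, h1, h2, h3, hcont, h4, ?_⟩
  choose kk hkk using fun (x : G) (n : ℕ) => hc _ (hw1 n) x
  let s : Q → G := Function.surjInv h4
  have hs : ∀ q, f (s q) = q := Function.surjInv_eq h4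
  let step : List ℕ → Finset Q → List ℕ := fun l F =>
    l ++ [NN l + ∑ q ∈ F, kk (s q) (NN l)]
  let cd : List (Finset Q) → List ℕ := fun L => L.foldl step []
  refine ⟨fun L => f '' (W σ' c (NN (cd L))), fun L => h5 _ (hB2 _), fun F hcov => ?_⟩
  let cds : ℕ → List ℕ := fun n => cd ((List.range n).map F)
  let a : ℕ → ℕ := fun n => NN (cds n) + ∑ q ∈ F n, kk (s q) (NN (cds n))
  have hcds : ∀ n, cds n = (List.range n).map a := by
    intro n
    induction n with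
    | zero => rfl
    | succ n ih =>
      have h8 : cds (n + 1) = step (cds n) (F n) := by
        simp only [cds, cd]
        rw [List.range_succ, List.map_append, List.foldl_append]
        rfl
      rw [h8, List.range_succ, List.map_append, ← ih]
      rfl
  refine hw (fun n => mv σ' c (a n)) fun x hxA => ?_
  obtain ⟨n, hn⟩ := mem_iUnion.1 (hcov (mem_image_of_mem f hxA))
  obtain ⟨q, hq, z, ⟨v, hv, rfl⟩, hqz⟩ := Set.mem_mul.1 hn
  have hv' : v ∈ W σ' c (NN (cds n)) := hv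
  have ht : (s q * v)⁻¹ * x ∈ W σ' c (NN (cds n)) := by
    refine h7 _ (hB2 _) _ ?_
    rw [map_mul, map_inv, map_mul, hs, hqz, inv_mul_cancel]
  have hk := hkk (s q) (NN (cds n))
  have hsub : W σ' c (NN (cds n)) ⊆ σ' ((List.range n).map fun n => mv σ' c (a n)) := by
    have h9 := W_sub σ' c (n := NN (cds n)) (cds n) (by unfold NN; omega) fun b hb => lt_NN hb
    have h10 : (cds n).map (mv σ' c) = (List.range n).map fun n => mv σ' c (a n) := by
      rw [hcds n, List.map_map]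
      rfl
    rwa [h10] at h9
  refine mem_iUnion.2 ⟨n, Set.mem_mul.2 ⟨c (W σ' c (NN (cds n))) (kk (s q) (NN (cds n))), ?_,
    (c (W σ' c (NN (cds n))) (kk (s q) (NN (cds n))))⁻¹ * s q * v * ((s q * v)⁻¹ * x),
    hσ3 _ _ (hsub hk) _ (hsub hv') _ (hsub ht), by group⟩⟩
  refine Finset.mem_coe.2 (mem_mv σ' c (Nat.le_add_right _ _) ?_)
  have h11 : kk (s q) (NN (cds n)) ≤ ∑ q ∈ F n, kk (s q) (NN (cds n)) :=
    Finset.single_le_sum (f := fun q => kk (s q) (NN (cds n))) (fun _ _ => Nat.zero_le _) hq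
  exact le_trans h11 (Nat.le_add_left _ _)

/-- winning strategies of player I pull back along continuous homomorphisms -/
theorem pull_back {G Q : Type u} [Group G] [TopologicalSpace G] [Group Q] [TopologicalSpace Q]
    (f : G →* Q) (hf : Continuous f) (A : Set G) (h : PlayerIWins (f '' A)) : PlayerIWins A := by
  classical
  obtain ⟨σ, hσ, hw⟩ := h
  refine ⟨fun L => f ⁻¹' σ (L.map fun F => F.image f), fun L =>
    hf.continuousAt.preimage_mem_nhds (by rw [map_one]; exact hσ _), fun F hcov => ?_⟩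
  refine hw (fun n => (F n).image f) ?_
  rintro _ ⟨x, hx, rfl⟩
  obtain ⟨n, hn⟩ := mem_iUnion.1 (hcov hx)
  obtain ⟨p, hp, v, hv, rfl⟩ := Set.mem_mul.1 hn
  refine mem_iUnion.2 ⟨n, Set.mem_mul.2 ⟨f p, ?_, f v, ?_, (map_mul f p v).symm⟩⟩
  · exact Finset.mem_coe.2 (Finset.mem_image_of_mem f hp)
  · have h1 : f v ∈ σ (((List.range n).map F).map fun F => F.image f) := hv
    rwa [List.map_map] at h1

theorem obounded_image {G Q : Type u} [Group G] [TopologicalSpace G] [Group Q]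
    [TopologicalSpace Q] (f : G →* Q) (hf : Continuous f) (A : Set G) (h : OBounded A) :
    OBounded (f '' A) := by
  classical
  intro U hU
  obtain ⟨F, hF⟩ := h (fun n => f ⁻¹' (U n)) (fun n =>
    hf.continuousAt.preimage_mem_nhds (by rw [map_one]; exact hU n))
  refine ⟨fun n => (F n).image f, ?_⟩
  rintro _ ⟨x, hx, rfl⟩
  obtain ⟨n, hn⟩ := mem_iUnion.1 (hF hx)
  obtain ⟨p, hp, v, hv, rfl⟩ := Set.mem_mul.1 hn
  refine mem_iUnion.2 ⟨n, Set.mem_mul.2 ⟨f p, ?_, f v, hv, (map_mul f p v).symm⟩⟩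
  exact Finset.mem_coe.2 (Finset.mem_image_of_mem f hp)

theorem narrow_seq {G : Type u} [Group G] {V : Set G} {D : Set G} (hD : D.Countable)
    (h : D * V = univ) : ∃ c : ℕ → G, ∀ x, ∃ k, (c k)⁻¹ * x ∈ V := by
  obtain ⟨c, hc⟩ := (hD.insert 1).exists_eq_range ⟨1, mem_insert _ _⟩
  refine ⟨c, fun x => ?_⟩
  have hx : x ∈ D * V := by rw [h]; exact mem_univ x
  obtain ⟨p, hp, v, hv, rfl⟩ := Set.mem_mul.1 hx
  have : p ∈ insert (1 : G) D := mem_insert_of_mem _ hp
  rw [hc] at this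
  obtain ⟨k, rfl⟩ := this
  exact ⟨k, by rwa [inv_mul_cancel_left]⟩

theorem narrow_of_obounded {G : Type u} [Group G] [TopologicalSpace G]
    (h : OBounded (univ : Set G)) (V : Set G) (hV : V ∈ 𝓝 (1 : G)) :
    ∃ D : Set G, D.Countable ∧ D * V = univ := by
  obtain ⟨F, hF⟩ := h (fun _ => V) (fun _ => hV)
  refine ⟨⋃ n, (F n : Set G), countable_iUnion fun n => (F n).countable_toSet, ?_⟩
  refine eq_univ_of_univ_subset fun x hx => ?_
  obtain ⟨n, hn⟩ := mem_iUnion.1 (hF hx)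
  obtain ⟨p, hp, v, hv, rfl⟩ := Set.mem_mul.1 hn
  exact Set.mem_mul.2 ⟨p, mem_iUnion.2 ⟨n, hp⟩, v, hv, rfl⟩

end Pool.Agent.Y783.OM
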