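import Mathlib

/-!
# The separable metrizable quotient defined by a countable group filter basis
-/

set_option autoImplicit false

namespace Pool.Agent.Y783.OM

open Set Topology Pointwise Filter

universe u

/-- A countable group filter basis of narrow sets defines a separable metrizable quotient group. -/
theorem exists_quotient (G : Type u) [Group G] (B : GroupFilterBasis G)
    (hc : {V | V ∈ B}.Countable)
    (hnar : ∀ V ∈ B, ∃ c : ℕ → G, ∀ x, ∃ k, (c k)⁻¹ * x ∈ V) :
    ∃ (Q : Type u) (_ : Group Q) (_ : TopologicalSpace Q) (f : G →* Q),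
      IsTopologicalGroup Q ∧ TopologicalSpace.MetrizableSpace Q ∧
      TopologicalSpace.SeparableSpace Q ∧ Function.Surjective f ∧
      (∀ V ∈ B, f '' V ∈ 𝓝 (1 : Q)) ∧ (∀ O ∈ 𝓝 (1 : Q), ∃ V ∈ B, f '' V ⊆ O) ∧
      ∀ V ∈ B, ∀ x, f x = 1 → x ∈ V := by
  letI : TopologicalSpace G := B.topology
  haveI : IsTopologicalGroup G := B.isTopologicalGroup
  have hbas := B.nhds_one_hasBasis
  let N : Subgroup G := (⊥ : Subgroup G).topologicalClosure
  haveI : N.Normal := Subgroup.is_normal_topologicalClosure _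
  haveI : IsClosed (N : Set G) := Subgroup.isClosed_topologicalClosure _
  have hT3 : T3Space (G ⧸ N) := QuotientGroup.instT3Space N
  have hn1 : (𝓝 (1 : G)).IsCountablyGenerated :=
    HasCountableBasis.isCountablyGenerated ⟨hbas, hc⟩
  have hq : 𝓝 (1 : G ⧸ N) = Filter.map (QuotientGroup.mk' N) (𝓝 (1 : G)) :=
    QuotientGroup.nhds_eq N (1 : G)
  have hn2 : (𝓝 (1 : G ⧸ N)).IsCountablyGenerated := by
    rw [hq]; infer_instance
  have h5 : ∀ V ∈ B, QuotientGroup.mk' N '' V ∈ 𝓝 (1 : G ⧸ N) := by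
    intro V hV
    rw [hq]
    exact image_mem_map (B.mem_nhds_one hV)
  have h6 : ∀ O ∈ 𝓝 (1 : G ⧸ N), ∃ V ∈ B, QuotientGroup.mk' N '' V ⊆ O := by
    intro O hO
    rw [hq, mem_map, hbas.mem_iff] at hO
    obtain ⟨V, hV, hVO⟩ := hO
    exact ⟨V, hV, image_subset_iff.2 hVO⟩
  have hmet : TopologicalSpace.MetrizableSpace (G ⧸ N) := by
    letI : UniformSpace (G ⧸ N) := IsTopologicalGroup.rightUniformSpace (G ⧸ N)
    haveI : (uniformity (G ⧸ N)).IsCountablyGenerated := by
      rw [uniformity_eq_comap_nhds_one']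
      infer_instance
    exact UniformSpace.metrizableSpace
  have hsep : TopologicalSpace.SeparableSpace (G ⧸ N) := by
    choose! c hcc using hnar
    refine ⟨⋃ V ∈ {V | V ∈ B}, range fun k => QuotientGroup.mk' N (c V k),
      hc.biUnion fun V _ => countable_range _, ?_⟩
    rw [dense_iff_inter_open]
    rintro O hO ⟨y, hy⟩
    obtain ⟨x, rfl⟩ := QuotientGroup.mk'_surjective N y
    have hO' : (QuotientGroup.mk' N) ⁻¹' O ∈ 𝓝 x :=
      (hO.preimage QuotientGroup.continuous_mk).mem_nhds hy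
    have h1 : (fun z => x * z) ⁻¹' ((QuotientGroup.mk' N) ⁻¹' O) ∈ 𝓝 (1 : G) := by
      refine (continuous_const_mul x).continuousAt.preimage_mem_nhds ?_
      rw [mul_one]
      exact hO'
    rw [hbas.mem_iff] at h1
    obtain ⟨V, hV, hVO⟩ := h1
    obtain ⟨V', hV', hVV⟩ := B.inv hV
    obtain ⟨k, hk⟩ := hcc V' hV' x
    have h2 := hVV hk
    have h3 := hVO h2
    refine ⟨QuotientGroup.mk' N (c V' k), ?_, mem_iUnion₂.2 ⟨V', hV', k, rfl⟩⟩
    have h4 : x * ((c V' k)⁻¹ * x)⁻¹ = c V' k := by group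
    have h7 : QuotientGroup.mk' N (x * ((c V' k)⁻¹ * x)⁻¹) ∈ O := h3
    rwa [h4] at h7
  refine ⟨G ⧸ N, inferInstance, inferInstance, QuotientGroup.mk' N, inferInstance, hmet, hsep,
    QuotientGroup.mk'_surjective N, h5, h6, ?_⟩
  intro V hV x hx
  have hxN : x ∈ N := (QuotientGroup.eq_one_iff x).1 hx
  have hx2 : x ∈ closure ({1} : Set G) := by
    have : x ∈ (N : Set G) := hxN
    rwa [Subgroup.coe_topologicalClosure_bot] at this
  obtain ⟨V', hV', hVV⟩ := B.inv hV
  have h8 : (fun z => x * z) '' V' ∈ 𝓝 x := by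
    have := (Homeomorph.mulLeft x).isOpenMap.image_mem_nhds (B.mem_nhds_one hV')
    simpa using this
  obtain ⟨z, hz1, hz2⟩ := mem_closure_iff_nhds.1 hx2 _ h8
  obtain ⟨v, hv, hvz⟩ := hz1
  have hz3 : z = 1 := hz2
  have : x = v⁻¹ := by
    rw [hz3] at hvz
    exact eq_inv_of_mul_eq_one_left hvz
  rw [this]
  exact hVV hv

end Pool.Agent.Y783.OM
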