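import Pool.Agent.Y783.OM.Main

/-!
# Player I does not win on sets of size smaller than the dominating number
-/

set_option autoImplicit false

namespace Pool.Agent.Y783.OM

open Set Topology Pointwise Filter
open Pool.Agent.Results.MP_b00c97_gt.Square (W mv W_nhds W_sub mem_mv OBounded PlayerIWins)

universe u

theorem NN_append (l : List ℕ) (b : ℕ) : NN (l ++ [b]) = NN l + b + 1 := by
  unfold NN
  rw [List.length_append, List.sum_append, List.length_singleton, List.sum_singleton]
  omega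

theorem dominating_of_wins (G : Type u) [Group G] [TopologicalSpace G]
    (hnar : ∀ V ∈ 𝓝 (1 : G), ∃ c : ℕ → G, ∀ x, ∃ k, (c k)⁻¹ * x ∈ V)
    (A : Set G) (hwin : PlayerIWins A) :
    ∃ φ : A → ℕ → ℕ, ∀ g : ℕ → ℕ, ∃ x, ∀ n, g n ≤ φ x n := by
  classical
  obtain ⟨σ, hσ, hw⟩ := hwin
  have hex : ∀ V : Set G, ∃ c : ℕ → G, V ∈ 𝓝 (1 : G) → ∀ x, ∃ k, (c k)⁻¹ * x ∈ V := by
    intro V
    by_cases hV : V ∈ 𝓝 (1 : G)
    · obtain ⟨c, hc⟩ := hnar V hV
      exact ⟨c, fun _ => hc⟩
    · exact ⟨fun _ => 1, fun h => absurd h hV⟩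
  choose c hc using hex
  have hw1 : ∀ n, W σ c n ∈ 𝓝 (1 : G) := W_nhds hσ c
  choose kk hkk using fun (x : G) (n : ℕ) => hc _ (hw1 n) x
  let E : G → ℕ → ℕ := fun x n =>
    Nat.rec 1 (fun _ e => e + 1 + ∑ m ∈ Finset.range (e + 1), kk x m) n
  have hEs : ∀ x n, E x (n + 1) = E x n + 1 + ∑ m ∈ Finset.range (E x n + 1), kk x m :=
    fun x n => rfl
  refine ⟨fun x n => E x (n + 1), fun g => ?_⟩
  by_contra hg
  push Not at hg
  let cds : ℕ → List ℕ := fun n => Nat.rec [] (fun n l => l ++ [max (g n) (NN l)]) n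
  let a : ℕ → ℕ := fun n => max (g n) (NN (cds n))
  have hcs : ∀ n, cds (n + 1) = cds n ++ [a n] := fun n => rfl
  have hcds : ∀ n, cds n = (List.range n).map a := by
    intro n
    induction n with
    | zero => rfl
    | succ n ih => rw [hcs, List.range_succ, List.map_append, ← ih]; rfl
  refine hw (fun n => mv σ c (a n)) fun x hxA => ?_
  by_contra hcon
  have hun : ∀ n, a n < kk x (NN (cds n)) := by
    intro n
    by_contra hle
    rw [not_lt] at hle
    refine hcon (mem_iUnion.2 ⟨n, Set.mem_mul.2 ⟨c (W σ c (NN (cds n))) (kk x (NN (cds n))), ?_,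
      (c (W σ c (NN (cds n))) (kk x (NN (cds n))))⁻¹ * x, ?_, by group⟩⟩)
    · exact Finset.mem_coe.2 (mem_mv σ c (le_max_right _ _) hle)
    · have h9 := W_sub σ c (n := NN (cds n)) (cds n) (by unfold NN; omega) fun b hb => lt_NN hb
      have h10 : (cds n).map (mv σ c) = (List.range n).map fun n => mv σ c (a n) := by
        rw [hcds n, List.map_map]
        rfl
      rw [h10] at h9
      exact h9 (hkk x _)
  have hE : ∀ n, NN (cds n) ≤ E x n := by
    intro n
    induction n with
    | zero => exact le_of_eq rfl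
    | succ n ih =>
      rw [hcs, NN_append, hEs]
      have h1 := hun n
      have h2 : kk x (NN (cds n)) ≤ ∑ m ∈ Finset.range (E x n + 1), kk x m :=
        Finset.single_le_sum (f := fun m => kk x m) (fun _ _ => Nat.zero_le _)
          (Finset.mem_range.2 (Nat.lt_succ_of_le ih))
      omega
  obtain ⟨n, hn⟩ := hg ⟨x, hxA⟩
  have h1 := hE (n + 1)
  rw [hcs, NN_append] at h1
  have h2 : g n ≤ a n := le_max_left _ _
  have h3 : E x (n + 1) < g n := hn
  omega

end Pool.Agent.Y783.OM
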